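import Pool.Agent.R518.B.FS4

set_option autoImplicit false

/-!
# Four squares: represented primes in arithmetic progressions whose quadruples are almost prime
-/

namespace Pool.Agent.Results.MP_40574a_nt.PrimesInProgressions

open Finset Filter

/-- `p` is the value of `x + 2 y + 5 z` at a representation of `n` as a sum of four squares of
natural numbers. -/
def Val (n p : ℕ) : Prop := ∃ x y z w : ℕ, n = x ^ 2 + y ^ 2 + z ^ 2 + w ^ 2 ∧ p = x + 2 * y + 5 * z

/-- For `p = q m + a + 2`: `p` is a value at a representation of `n` and none of `p - 2`, `p`, `p + 4`, `p + 10`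
has a prime factor `≤ s`. -/
def Good (n q a s m : ℕ) : Prop := Val n (q * m + a + 2) ∧
  ∀ l : ℕ, l.Prime → l ≤ s → ∀ h ∈ ({0, 2, 6, 12} : Finset ℕ), ¬ l ∣ q * m + a + h

/-- The product of `1 - 4 / p` over the primes `p ≤ s` which do not divide `q`. -/
noncomputable def V (q s : ℕ) : ℝ :=
  ∏ p ∈ (Finset.range (s + 1)).filter Nat.Prime, (1 - (if p ∣ q then 0 else 4 : ℕ) / (p : ℝ))

/-- The same product, every factor divided by `1 - 1 / p`. -/
noncomputable def W (q s : ℕ) : ℝ :=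
  ∏ p ∈ (Finset.range (s + 1)).filter Nat.Prime,
    (1 - (if p ∣ q then 0 else 4 : ℕ) / (p : ℝ)) / (1 - 1 / (p : ℝ))

open Classical in
/-- The `m` in `(u, u + Y]` with `Good n q a s m` for which `q m + a + b` is PRIME: `p - 2`, `p`, `p + 4`, `p + 10`
for `b = 0, 2, 6, 12`. -/
noncomputable def P (n q a b s u Y : ℕ) : Finset ℕ :=
  (Ioc u (u + Y)).filter (fun m => (q * m + a + b).Prime ∧ Good n q a s m)

open Classical in
/-- The number of the `m'` in `(m, m + T]` with `Good n q a s m'`. -/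
noncomputable def Next (n q a s T m : ℕ) : ℕ := ((Ioc m (m + T)).filter (fun m' => Good n q a s m')).card

lemma good_iff {n q a s m : ℕ} (h4 : ¬ 4 ∣ n) (hq : 30 ∣ q) (hc : Nat.Coprime q (a + 2))
    (h1 : 29 * n ≤ (q * m + a + 2) ^ 2) (h2 : (q * m + a + 2) ^ 2 ≤ 30 * n) :
    Good n q a s m ↔ Pool.Agent.R490.LZ.Ro (Pool.Agent.R490.Tq.fz q a {0, 2, 6, 12}) s m := by
  rw [Pool.Agent.R490.Tq.ro_iff]
  exact ⟨fun h => h.2, fun h => ⟨Pool.Agent.R518.FS4.val_of h4 hq hc h1 h2, h⟩⟩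

lemma V_eq {q a s : ℕ} (hq : 30 ∣ q) (hco : ∀ h ∈ ({0, 2, 6, 12} : Finset ℕ), Nat.Coprime q (a + h)) :
    Pool.Agent.R490.LZ.De (Pool.Agent.R490.Tq.fz q a {0, 2, 6, 12}) s = V q s := by
  rw [Pool.Agent.R490.Tq.fz_De _ _ _ _ hco]
  unfold Pool.Agent.R490.Tq.V V
  apply Finset.prod_congr rfl
  intro p hp
  rw [Pool.Agent.R518.FS4.nu4 (mem_filter.1 hp).2 hq]

lemma W_eq {q a s : ℕ} (hq : 30 ∣ q) (hco : ∀ h ∈ ({0, 2, 6, 12} : Finset ℕ), Nat.Coprime q (a + h)) :
    Pool.Agent.R490.LZ.Wr (Pool.Agent.R490.Tq.fz q a {0, 2, 6, 12}) s = W q s := by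
  rw [Pool.Agent.R490.Tq.fz_Wr _ _ _ _ hco]
  unfold Pool.Agent.R490.Tq.W W
  apply Finset.prod_congr rfl
  intro p hp
  rw [Pool.Agent.R518.FS4.nu4 (mem_filter.1 hp).2 hq]

open Classical in
/-- **Represented primes in progressions.** Let `q` be squarefree and divisible by `30`, `δ > 0`, `x0` and
`0 < ε ≤ 1`. There is `r0` such that for every `r ≥ r0` and all large `n` not divisible by `4`, with
`s = n ^ (1 / r)`: for all `a ≤ q` with `q` prime to `a`, `a + 2`, `a + 6`, `a + 12`, for `b = 0, 2, 6, 12` and for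
every interval `(u, u + Y]` with `Y ≥ δ √n` such that `p = q m + a + 2` lies between `√(29 n)` and `√(30 n)`: the
number of the `m` in it for which `p` is a value at a representation of `n`, `q m + a + b` is PRIME and none of
`p - 2`, `p`, `p + 4`, `p + 10` has a prime factor `≤ s` is `Y W / log (u + Y)`, up to the factor `1 + ε`, and the
number of the good `m'` which follow such an `m` within `T` has the Poisson distribution of mean `T V ≤ x0`. -/
theorem result (q : ℕ) (hq : Squarefree q) (h30 : 30 ∣ q) (δ : ℝ) (hδ : 0 < δ) (x0 ε : ℝ) (hε : 0 < ε)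
    (hε1 : ε ≤ 1) :
    ∃ r0 : ℕ, 2 ≤ r0 ∧ ∀ r : ℕ, r0 ≤ r → ∀ᶠ n : ℕ in atTop, ¬ 4 ∣ n → ∀ s : ℕ, s = ⌊(n : ℝ) ^ (1 / (r : ℝ))⌋₊ →
      0 < W q s ∧
      ∀ a : ℕ, a ≤ q → (∀ h ∈ ({0, 2, 6, 12} : Finset ℕ), Nat.Coprime q (a + h)) →
      ∀ b ∈ ({0, 2, 6, 12} : Finset ℕ), ∀ u Y : ℕ, δ * √n ≤ Y →
      29 * n ≤ (q * (u + 1) + a + 2) ^ 2 → (q * (u + Y) + a + 2) ^ 2 ≤ 30 * n →
      |((P n q a b s u Y).card : ℝ) * Real.log ((u + Y : ℕ) : ℝ) - Y * W q s| ≤ ε * (Y * W q s) ∧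
      ∀ T : ℕ, T * V q s ≤ x0 → (q * (u + Y + T) + a + 2) ^ 2 ≤ 30 * n → ∀ J : Finset ℕ,
      |(((P n q a b s u Y).filter (fun m => Next n q a s T m ∈ J)).card : ℝ) -
          (P n q a b s u Y).card * ∑ j ∈ J, Real.exp (-(T * V q s)) * (T * V q s) ^ j / j.factorial| ≤
        ε * (P n q a b s u Y).card := by
  have hq1 : 1 ≤ q := Nat.one_le_iff_ne_zero.2 hq.ne_zero
  -- a residue class
  have key : ∀ b ∈ ({0, 2, 6, 12} : Finset ℕ), ∃ r0 : ℕ, 2 ≤ r0 ∧ ∀ r : ℕ, r0 ≤ r → ∀ᶠ n : ℕ in atTop,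
      ¬ 4 ∣ n → ∀ s : ℕ, s = ⌊(n : ℝ) ^ (1 / (r : ℝ))⌋₊ →
      ∀ a : ℕ, a ≤ q → (∀ h ∈ ({0, 2, 6, 12} : Finset ℕ), Nat.Coprime q (a + h)) →
      0 < W q s ∧
      ∀ u Y : ℕ, δ * √n ≤ Y →
      29 * n ≤ (q * (u + 1) + a + 2) ^ 2 → (q * (u + Y) + a + 2) ^ 2 ≤ 30 * n →
      |((P n q a b s u Y).card : ℝ) * Real.log ((u + Y : ℕ) : ℝ) - Y * W q s| ≤ ε * (Y * W q s) ∧
      ∀ T : ℕ, T * V q s ≤ x0 → (q * (u + Y + T) + a + 2) ^ 2 ≤ 30 * n → ∀ J : Finset ℕ,
      |(((P n q a b s u Y).filter (fun m => Next n q a s T m ∈ J)).card : ℝ) -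
          (P n q a b s u Y).card * ∑ j ∈ J, Real.exp (-(T * V q s)) * (T * V q s) ^ j / j.factorial| ≤
        ε * (P n q a b s u Y).card := by
    intro b hb
    obtain ⟨r0, hr0, h0⟩ := Pool.Agent.R490.LZ.primeL q 4 2 hq (by norm_num) 1 (1 / 4) (min (δ / 6) 1) one_pos
      (by norm_num) (by positivity) (min_le_right _ _) x0 ε hε hε1
    refine ⟨r0, hr0, fun r hr => ?_⟩
    have hb1 : ∀ᶠ n : ℕ in atTop, ((q + 12 : ℕ) : ℝ) ≤ (n : ℝ) ^ ((1 / 4 : ℝ) / 4) :=
      ((tendsto_rpow_atTop (by norm_num)).comp tendsto_natCast_atTop_atTop).eventually_ge_atTop _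
    have hb2 : ∀ᶠ n : ℕ in atTop, ((2 * q + 3 : ℕ) : ℝ) ≤ (n : ℝ) ^ (1 / 4 : ℝ) :=
      ((tendsto_rpow_atTop (by norm_num)).comp tendsto_natCast_atTop_atTop).eventually_ge_atTop _
    filter_upwards [h0 r hr, eventually_ge_atTop (q + 12), hb1, hb2] with n hn hnq hqb hqc
    intro h4 s hs a haq hco
    have hn1 : 1 ≤ n := by omega
    have hnR : (0 : ℝ) ≤ (n : ℝ) := Nat.cast_nonneg n
    have hb12 : b ≤ 12 := by
      simp only [Finset.mem_insert, Finset.mem_singleton] at hb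
      omega
    have hn2 : n ≤ n ^ 2 := Nat.le_self_pow (by norm_num) n
    have hsq : q + (q + 12) ≤ n ^ 2 := by nlinarith
    have h1 := hn (Pool.Agent.R490.Tq.fz q a {0, 2, 6, 12}) (a + b)
      (by rw [Pool.Agent.R490.Tq.fz_card, Pool.Agent.R518.FS4.card4])
      (Finset.mem_image.2 ⟨b, hb, rfl⟩)
      (by
        refine le_trans ?_ hqb
        exact_mod_cast (by omega : a + b ≤ q + 12))
      (fun p _ hpq l hl => by
        obtain ⟨h, hh, rfl⟩ := Finset.mem_image.1 hl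
        have h3 : (p : ℤ) ∣ (q : ℤ) := by exact_mod_cast hpq
        exact h3)
      (Pool.Agent.R490.Tq.fz_good q a _ _ hq1 (by omega)
        (fun h hh => by
          simp only [Finset.mem_insert, Finset.mem_singleton] at hh
          omega) hco Pool.Agent.R518.FS4.adm4)
      (Pool.Agent.R490.Tq.fz_noT q a _ hq1 (Pool.Agent.R518.FS4.dif4 h30) _) s hs
    rw [W_eq h30 hco, V_eq h30 hco] at h1
    refine ⟨h1.1, ?_⟩
    intro u Y hY hw1 hw2
    have hsqrt : √(n : ℝ) ^ 2 = n := Real.sq_sqrt hnR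
    have hs0 : 0 ≤ √(n : ℝ) := Real.sqrt_nonneg _
    -- the size of the window
    have e1 : ((q * (u + Y) + a + 2 : ℕ) : ℝ) ^ 2 ≤ 30 * n := by exact_mod_cast hw2
    have e2 : (29 : ℝ) * n ≤ ((q * (u + 1) + a + 2 : ℕ) : ℝ) ^ 2 := by exact_mod_cast hw1
    have e3 : ((u + Y : ℕ) : ℝ) ≤ 6 * √n := by
      have h5 : ((u + Y : ℕ) : ℝ) ≤ ((q * (u + Y) + a + 2 : ℕ) : ℝ) := by
        have : u + Y ≤ q * (u + Y) := Nat.le_mul_of_pos_left _ (by omega)
        exact_mod_cast (by omega : u + Y ≤ q * (u + Y) + a + 2)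
      refine h5.trans ?_
      apply (pow_le_pow_iff_left₀ (by positivity) (by positivity) two_ne_zero).1
      rw [mul_pow, hsqrt]
      linarith
    have e4 : (n : ℝ) ^ (1 / 4 : ℝ) ≤ ((u + Y : ℕ) : ℝ) := by
      have h5 : 5 * √(n : ℝ) ≤ ((q * (u + 1) + a + 2 : ℕ) : ℝ) := by
        apply (pow_le_pow_iff_left₀ (by positivity) (by positivity) two_ne_zero).1
        rw [mul_pow, hsqrt]
        linarith
      have h6 : √(n : ℝ) = (n : ℝ) ^ (1 / 4 : ℝ) * (n : ℝ) ^ (1 / 4 : ℝ) := by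
        rw [← Real.rpow_add (by positivity), Real.sqrt_eq_rpow]
        norm_num
      have h7 : ((q * (u + 1) + a + 2 : ℕ) : ℝ) ≤ ((2 * q + 3 : ℕ) : ℝ) * ((u + 1 : ℕ) : ℝ) := by
        have : q * (u + 1) + a + 2 ≤ (2 * q + 3) * (u + 1) := by nlinarith
        exact_mod_cast this
      have h8 : 5 * ((n : ℝ) ^ (1 / 4 : ℝ) * (n : ℝ) ^ (1 / 4 : ℝ)) ≤
          (n : ℝ) ^ (1 / 4 : ℝ) * ((u + 1 : ℕ) : ℝ) := by
        rw [← h6]
        refine h5.trans (h7.trans ?_)
        exact mul_le_mul_of_nonneg_right hqc (by positivity)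
      have h9 : 0 < (n : ℝ) ^ (1 / 4 : ℝ) := Real.rpow_pos_of_pos (by exact_mod_cast hn1) _
      have h10 : 5 * (n : ℝ) ^ (1 / 4 : ℝ) ≤ ((u + 1 : ℕ) : ℝ) := by
        apply le_of_mul_le_mul_left _ h9
        linarith
      have h11 : (1 : ℝ) ≤ (n : ℝ) ^ (1 / 4 : ℝ) := Real.one_le_rpow (by exact_mod_cast hn1) (by norm_num)
      push_cast at h10 ⊢
      have : (0 : ℝ) ≤ Y := Nat.cast_nonneg Y
      linarith
    have e5 : min (δ / 6) 1 * ((u + Y : ℕ) : ℝ) ≤ Y := by
      calc min (δ / 6) 1 * ((u + Y : ℕ) : ℝ) ≤ δ / 6 * (6 * √n) :=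
            mul_le_mul (min_le_left _ _) e3 (by positivity) (by positivity)
        _ = δ * √n := by ring
        _ ≤ Y := hY
    have h2 := h1.2 (u + Y) e4 u Y e5 le_rfl
    have kw : ∀ m : ℕ, u + 1 ≤ m → m ≤ u + Y →
        (Good n q a s m ↔ Pool.Agent.R490.LZ.Ro (Pool.Agent.R490.Tq.fz q a {0, 2, 6, 12}) s m) := by
      intro m hm1 hm2
      refine good_iff h4 h30 (hco 2 (by decide)) (hw1.trans ?_) (le_trans ?_ hw2)
      · apply Nat.pow_le_pow_left
        have := Nat.mul_le_mul_left q hm1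
        omega
      · apply Nat.pow_le_pow_left
        have := Nat.mul_le_mul_left q hm2
        omega
    have eP : Pool.Agent.R490.LZ.Pr q (a + b) (Pool.Agent.R490.Tq.fz q a {0, 2, 6, 12}) s u Y =
        P n q a b s u Y := by
      unfold Pool.Agent.R490.LZ.Pr P
      apply Finset.filter_congr
      intro m hm
      rw [mem_Ioc] at hm
      rw [← kw m (by omega) hm.2, ← add_assoc]
    rw [eP] at h2
    refine ⟨h2.1, ?_⟩
    intro T hT hwT J
    have h3 := h2.2 T hT J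
    have kw2 : ∀ m : ℕ, u + 1 ≤ m → m ≤ u + Y + T →
        (Good n q a s m ↔ Pool.Agent.R490.LZ.Ro (Pool.Agent.R490.Tq.fz q a {0, 2, 6, 12}) s m) := by
      intro m hm1 hm2
      refine good_iff h4 h30 (hco 2 (by decide)) (hw1.trans ?_) (le_trans ?_ hwT)
      · apply Nat.pow_le_pow_left
        have := Nat.mul_le_mul_left q hm1
        omega
      · apply Nat.pow_le_pow_left
        have := Nat.mul_le_mul_left q hm2
        omega
    have eF : (P n q a b s u Y).filter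
        (fun m => Pool.Agent.R490.LZ.Nx (Pool.Agent.R490.Tq.fz q a {0, 2, 6, 12}) s T m ∈ J) =
        (P n q a b s u Y).filter (fun m => Next n q a s T m ∈ J) := by
      apply Finset.filter_congr
      intro m hm
      have hm' := hm
      unfold P at hm'
      rw [mem_filter, mem_Ioc] at hm'
      have eN : Pool.Agent.R490.LZ.Nx (Pool.Agent.R490.Tq.fz q a {0, 2, 6, 12}) s T m = Next n q a s T m := by
        unfold Pool.Agent.R490.LZ.Nx Next
        congr 1
        apply Finset.filter_congr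
        intro m' hm2
        rw [mem_Ioc] at hm2
        exact (kw2 m' (by omega) (by omega)).symm
      rw [eN]
    rw [eF] at h3
    exact h3
  choose! R0 hR0 hR using key
  refine ⟨(({0, 2, 6, 12} : Finset ℕ).sup R0), ?_, fun r hr => ?_⟩
  · exact (hR0 0 (by decide)).trans (Finset.le_sup (f := R0) (by decide : 0 ∈ ({0, 2, 6, 12} : Finset ℕ)))
  · have hall := (Filter.eventually_all_finset ({0, 2, 6, 12} : Finset ℕ)).2
      (fun b hb => hR b hb r ((Finset.le_sup hb).trans hr))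
    filter_upwards [hall] with n hn h4 s hs
    refine ⟨?_, fun a ha hco b hb => (hn b hb h4 s hs a ha hco).2⟩
    -- positivity of `W`
    unfold W
    apply Finset.prod_pos
    intro p hp
    have hpp : p.Prime := (mem_filter.1 hp).2
    have hp2 : (2 : ℝ) ≤ p := by exact_mod_cast hpp.two_le
    apply div_pos
    · split_ifs with hd
      · norm_num
      · have h30' : ¬ p ∣ 30 := fun h => hd (h.trans h30)
        have hp5 : 5 < p := by
          by_contra hcon
          have h5 : p ≤ 5 := by omega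
          have := hpp.two_le
          interval_cases p
          · exact h30' (by norm_num)
          · exact h30' (by norm_num)
          · exact absurd hpp (by norm_num)
          · exact h30' (by norm_num)
        have hp5' : (5 : ℝ) < p := by exact_mod_cast hp5
        rw [sub_pos, div_lt_one (by linarith)]
        push_cast
        linarith
    · have h1 : (1 : ℝ) / p ≤ 1 / 2 := one_div_le_one_div_of_le (by norm_num) hp2
      linarith

end Pool.Agent.Results.MP_40574a_nt.PrimesInProgressions
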