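import Pool.Agent.R518.B.FS4

set_option autoImplicit false

/-!
# Four squares: regular points of arbitrary sets of represented prime quadruples, in all progressions
-/

namespace Pool.Agent.Results.MP_40574a_nt.RegularPoints

open Finset Filter

/-- `p` is the value of `x + 2 y + 5 z` at a representation of `n` as a sum of four squares of
natural numbers. -/
def Val (n p : ℕ) : Prop := ∃ x y z w : ℕ, n = x ^ 2 + y ^ 2 + z ^ 2 + w ^ 2 ∧ p = x + 2 * y + 5 * z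

/-- For `p = q m + a + 2`: `p` is a value at a representation of `n` and none of `p - 2`, `p`, `p + 4`, `p + 10`
has a prime factor `≤ s`. -/
def Good (n q a s m : ℕ) : Prop := Val n (q * m + a + 2) ∧
  ∀ l : ℕ, l.Prime → l ≤ s → ∀ h ∈ ({0, 2, 6, 12} : Finset ℕ), ¬ l ∣ q * m + a + h

/-- The product of `1 - 4 / p` over the primes `p ≤ s` which do not divide `q`. -/
noncomputable def V (q s : ℕ) : ℝ :=
  ∏ p ∈ (Finset.range (s + 1)).filter Nat.Prime, (1 - (if p ∣ q then 0 else 4 : ℕ) / (p : ℝ))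

open Classical in
/-- The number of elements of `S` in `(a, b]`. -/
noncomputable def count (S : Set ℕ) (a b : ℕ) : ℕ := ((Finset.Ioc a b).filter (fun m => m ∈ S)).card

/-- All intervals `(m - s, m + t]` with `s, t ≤ Y` of length at least `L / κ` contain between
`κ (s + t) / L` and `(s + t) / (κ L)` elements of `S`. -/
def RightOrder (S : Set ℕ) (L κ : ℝ) (Y m : ℕ) : Prop :=
  ∀ s t : ℕ, s ≤ Y → t ≤ Y → L ≤ κ * (s + t) →
    κ * (s + t) / L ≤ count S (m - s) (m + t) ∧ (count S (m - s) (m + t) : ℝ) ≤ (s + t) / (κ * L)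

/-- Up to `δ`, `S` has a constant density on both sides of `m` up to the distance `2 ^ j`. -/
def ConstantDensity (S : Set ℕ) (L κ δ : ℝ) (m j : ℕ) : Prop :=
  ∃ lam : ℝ, κ ≤ lam ∧ lam ≤ 1 / κ ∧ ∀ s t : ℕ, s ≤ 2 ^ j → t ≤ 2 ^ j →
    |(count S (m - s) (m + t) : ℝ) - lam * (s + t) / L| ≤ δ * 2 ^ j / L

open Classical in
/-- The number of the scales `L ≤ 2 ^ j ≤ Y` without this property. -/
noncomputable def badScales (S : Set ℕ) (L κ δ : ℝ) (Y m : ℕ) : ℕ :=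
  ((Finset.range (Nat.log 2 Y + 1)).filter (fun j => L ≤ (2 : ℝ) ^ j ∧ ¬ ConstantDensity S L κ δ m j)).card

/-- The elements of `S` that are not regular points of `S`. -/
def Irregular (S : Set ℕ) (L κ δ : ℝ) (M Y : ℕ) : Set ℕ :=
  {m | m ∈ S ∧ ¬ (RightOrder S L κ Y m ∧ badScales S L κ δ Y m ≤ M)}

lemma V_eq {q s : ℕ} (hq : 30 ∣ q) : Pool.Agent.R490.Tq.V {0, 2, 6, 12} q s = V q s := by
  unfold Pool.Agent.R490.Tq.V V
  apply Finset.prod_congr rfl
  intro p hp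
  rw [Pool.Agent.R518.FS4.nu4 (mem_filter.1 hp).2 hq]

/-- **Regular points of arbitrary sets of represented prime quadruples.** Let `θ > 0`. There is `r0` such that for
`r ≥ r0` and `ε > 0` there is `κ > 0`, and for `δ > 0` there is `M`, such that for all large `n`, with
`s = n ^ (1 / r)`, ALL moduli `q ≤ n` divisible by `30` and all `a ≤ n` with `q` prime to `a`, `a + 2`, `a + 6`,
`a + 12`: (1) if `4` does not divide `n`, EVERY `m` for which `p = q m + a + 2` is between `√(29 n)` and `√(30 n)`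
and none of `p - 2`, `p`, `p + 4`, `p + 10` has a prime factor `≤ s` satisfies `Good n q a s m`; (2) for all
intervals `(u, u + Y]` with `n ^ θ ≤ Y ≤ n`, `Y ≤ u`, and EVERY set `S` of `m` with `Good n q a s m`, for instance
the set of all `m` for which `p` is a value and the four numbers are primes `> s`, or any subset: all but at most
`ε Y V` of the elements of `S` in `(u, u + Y]` are regular points of `S`. -/
theorem result (θ : ℝ) (hθ : 0 < θ) :
    ∃ r0 : ℕ, 2 ≤ r0 ∧ ∀ r : ℕ, r0 ≤ r → ∀ ε : ℝ, 0 < ε → ∃ κ : ℝ, 0 < κ ∧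
      ∀ δ : ℝ, 0 < δ → ∃ M : ℕ, ∀ᶠ n : ℕ in atTop, ∀ s : ℕ, s = ⌊(n : ℝ) ^ (1 / (r : ℝ))⌋₊ →
      ∀ q a : ℕ, 1 ≤ q → 30 ∣ q → q ≤ n → a ≤ n →
      (∀ h ∈ ({0, 2, 6, 12} : Finset ℕ), Nat.Coprime q (a + h)) →
      (¬ 4 ∣ n → ∀ m : ℕ, 29 * n ≤ (q * m + a + 2) ^ 2 → (q * m + a + 2) ^ 2 ≤ 30 * n →
        (∀ l : ℕ, l.Prime → l ≤ s → ∀ h ∈ ({0, 2, 6, 12} : Finset ℕ), ¬ l ∣ q * m + a + h) →
        Good n q a s m) ∧
      ∀ u Y : ℕ, (n : ℝ) ^ θ ≤ Y → Y ≤ n → Y ≤ u → ∀ S : Set ℕ, (∀ m ∈ S, Good n q a s m) →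
        (count (Irregular S (1 / V q s) κ δ M Y) u (u + Y) : ℝ) ≤ ε * (Y * V q s) := by
  obtain ⟨r0, hr0, h0⟩ := Pool.Agent.R490.Tq.treg 4 1 (by norm_num) θ hθ
  refine ⟨r0, hr0, fun r hr ε hε => ?_⟩
  obtain ⟨κ, hκ, h1⟩ := h0 r hr ε hε
  refine ⟨κ, hκ, fun δ hδ => ?_⟩
  obtain ⟨M, h2⟩ := h1 δ hδ
  refine ⟨M, ?_⟩
  filter_upwards [h2, eventually_ge_atTop 12] with n hn hn12
  intro s hs q a hq1 hq hqn han hco
  refine ⟨fun h4 m g1 g2 g3 => ⟨Pool.Agent.R518.FS4.val_of h4 hq (hco 2 (by decide)) g1 g2, g3⟩, ?_⟩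
  intro u Y hY hYn hYu S hS
  have h3 := hn s hs {0, 2, 6, 12} Pool.Agent.R518.FS4.card4 (Pool.Agent.R518.FS4.le4 hn12)
    Pool.Agent.R518.FS4.adm4 q a hq1 (by rw [pow_one]; exact hqn) (by rw [pow_one]; exact han) hco
    u Y hY hYn hYu S (fun m hm => (hS m hm).2)
  rw [V_eq hq] at h3
  exact h3

end Pool.Agent.Results.MP_40574a_nt.RegularPoints
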