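import Pool.Agent.R518.B.FS4

set_option autoImplicit false

/-!
# Four squares: the represented almost prime quadruples in all progressions and all short intervals
-/

namespace Pool.Agent.Results.MP_40574a_nt.SpacingLaw

open Finset Filter

/-- `p` is the value of `x + 2 y + 5 z` at a representation of `n` as a sum of four squares of
natural numbers. -/
def Val (n p : ℕ) : Prop := ∃ x y z w : ℕ, n = x ^ 2 + y ^ 2 + z ^ 2 + w ^ 2 ∧ p = x + 2 * y + 5 * z

/-- For `p = q m + a + 2`: `p` is a value at a representation of `n` and none of `p - 2`, `p`, `p + 4`, `p + 10`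
has a prime factor `≤ s`. -/
def Good (n q a s m : ℕ) : Prop := Val n (q * m + a + 2) ∧
  ∀ l : ℕ, l.Prime → l ≤ s → ∀ h ∈ ({0, 2, 6, 12} : Finset ℕ), ¬ l ∣ q * m + a + h

/-- The product of `1 - 4 / p` over the primes `p ≤ s` which do not divide `q`. -/
noncomputable def V (q s : ℕ) : ℝ :=
  ∏ p ∈ (Finset.range (s + 1)).filter Nat.Prime, (1 - (if p ∣ q then 0 else 4 : ℕ) / (p : ℝ))

open Classical in
/-- The number of the `m` in `(u, u + Y]` with `Good n q a s m` for which fewer than `k` of the `T` integers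
before `m` have this property, that is, for which the distance from `m` to the `k`-th preceding one is larger
than `T`. -/
noncomputable def D (n q a s k T u Y : ℕ) : ℕ :=
  ((Ioc u (u + Y)).filter (fun m => Good n q a s m ∧
    ((Ico (m - T) m).filter (fun m' => Good n q a s m')).card < k)).card

lemma good_iff {n q a s m : ℕ} (h4 : ¬ 4 ∣ n) (hq : 30 ∣ q) (hc : Nat.Coprime q (a + 2))
    (h1 : 29 * n ≤ (q * m + a + 2) ^ 2) (h2 : (q * m + a + 2) ^ 2 ≤ 30 * n) :
    Good n q a s m ↔ Pool.Agent.R490.Tq.Ro {0, 2, 6, 12} q a s m :=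
  ⟨fun h => h.2, fun h => ⟨Pool.Agent.R518.FS4.val_of h4 hq hc h1 h2, h⟩⟩

open Classical in
lemma D_eq {n q a s k T u Y : ℕ} (h4 : ¬ 4 ∣ n) (hq : 30 ∣ q) (hc : Nat.Coprime q (a + 2))
    (h1 : 29 * n ≤ (q * (u + 1 - T) + a + 2) ^ 2) (h2 : (q * (u + Y) + a + 2) ^ 2 ≤ 30 * n) :
    D n q a s k T u Y = Pool.Agent.R490.Tq.Dk {0, 2, 6, 12} q a s k T u Y := by
  have key : ∀ m : ℕ, u + 1 - T ≤ m → m ≤ u + Y →
      (Good n q a s m ↔ Pool.Agent.R490.Tq.Ro {0, 2, 6, 12} q a s m) := by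
    intro m hm1 hm2
    refine good_iff h4 hq hc (h1.trans ?_) (le_trans ?_ h2)
    · apply Nat.pow_le_pow_left
      have := Nat.mul_le_mul_left q hm1
      omega
    · apply Nat.pow_le_pow_left
      have := Nat.mul_le_mul_left q hm2
      omega
  unfold D Pool.Agent.R490.Tq.Dk
  congr 1
  apply Finset.filter_congr
  intro m hm
  rw [mem_Ioc] at hm
  rw [key m (by omega) hm.2]
  apply and_congr_right
  intro _
  have e : (Ico (m - T) m).filter (fun m' => Good n q a s m') =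
      (Ico (m - T) m).filter (fun m' => Pool.Agent.R490.Tq.Ro {0, 2, 6, 12} q a s m') := by
    apply Finset.filter_congr
    intro m' hm'
    rw [mem_Ico] at hm'
    exact key m' (by omega) (by omega)
  rw [e]

lemma V_eq {q s : ℕ} (hq : 30 ∣ q) : Pool.Agent.R490.Tq.V {0, 2, 6, 12} q s = V q s := by
  unfold Pool.Agent.R490.Tq.V V
  apply Finset.prod_congr rfl
  intro p hp
  rw [Pool.Agent.R518.FS4.nu4 (mem_filter.1 hp).2 hq]

open Classical in
/-- **The law of the spacings of the represented almost prime quadruples.** For all `θ > 0`, `k0`, `x0` and `ε > 0`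
there is `r0` such that for every `r ≥ r0`, all large `n` not divisible by `4`, `s = n ^ (1 / r)`, ALL moduli
`q ≤ n` divisible by `30` and all `a ≤ n` with `q` prime to `a`, `a + 2`, `a + 6`, `a + 12`, and ALL intervals of
`m`'s with `p = q m + a + 2` between `√(29 n)` and `√(30 n)` and of length `Y ≥ n ^ θ`: the distances to the `k`-th
preceding good `m` have, in units `1 / V` and up to `ε`, the distribution which belongs to a Poisson process. For
`k = 1` and `T = 0` this is the asymptotic number of the good `m`. -/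
theorem result (θ : ℝ) (hθ : 0 < θ) (k0 : ℕ) (x0 ε : ℝ) (hε : 0 < ε) :
    ∃ r0 : ℕ, ∀ r : ℕ, r0 ≤ r → ∀ᶠ n : ℕ in atTop, ¬ 4 ∣ n → ∀ s : ℕ, s = ⌊(n : ℝ) ^ (1 / (r : ℝ))⌋₊ →
      ∀ q a : ℕ, 1 ≤ q → 30 ∣ q → q ≤ n → a ≤ n →
      (∀ h ∈ ({0, 2, 6, 12} : Finset ℕ), Nat.Coprime q (a + h)) →
      ∀ u Y : ℕ, (n : ℝ) ^ θ ≤ Y → ∀ k T : ℕ, (k ≤ k0 ∨ T * V q s ≤ x0) →
        29 * n ≤ (q * (u + 1 - T) + a + 2) ^ 2 → (q * (u + Y) + a + 2) ^ 2 ≤ 30 * n →
        |(D n q a s k T u Y : ℝ) - Y * V q s *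
            ∑ j ∈ range k, Real.exp (-(T * V q s)) * (T * V q s) ^ j / j.factorial| ≤
          ε * (Y * V q s) := by
  obtain ⟨r0, h0⟩ := Pool.Agent.R490.Tq.tgap 4 1 (by norm_num) θ hθ k0 x0 ε hε
  refine ⟨r0, fun r hr => ?_⟩
  filter_upwards [h0 r hr, eventually_ge_atTop 12] with n hn hn12
  intro h4 s hs q a hq1 hq hqn han hco u Y hY k T hT h1 h2
  have h3 := hn s hs {0, 2, 6, 12} Pool.Agent.R518.FS4.card4 (Pool.Agent.R518.FS4.le4 hn12)
    Pool.Agent.R518.FS4.adm4 q a hq1 (by rw [pow_one]; exact hqn) (by rw [pow_one]; exact han) hco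
    (Pool.Agent.R518.FS4.dif4 hq) u Y hY k T (by rw [V_eq hq]; exact hT)
  rw [V_eq hq, ← D_eq h4 hq (hco 2 (by decide)) h1 h2] at h3
  exact h3

end Pool.Agent.Results.MP_40574a_nt.SpacingLaw
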